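import Pool.Agent.TFG.Ore

/-!
# Long paths between two vertices of a 2-connected graph (Erdos and Gallai)
-/

set_option autoImplicit false

namespace Pool.Agent.EG31

open List Pool.Agent.TF82 Pool.Agent.TFC Pool.Agent.TFB Pool.Agent.TFN

universe u

set_option linter.unusedSectionVars false

variable {V : Type u} [DecidableEq V]

/-- connected -/
def Conn1 (G : SimpleGraph V) (S : Finset V) : Prop := ∀ a ∈ S, ∀ b ∈ S, Reach G S a b

/-- no cut vertex -/
def Conn2 (G : SimpleGraph V) (S : Finset V) : Prop := ∀ z ∈ S, Conn1 G (S.erase z)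

/-- a closed set contains everything that can be reached from it -/
theorem closed_reach {G : SimpleGraph V} {S T : Finset V}
    (hT : ∀ w ∈ T, ∀ z ∈ S, G.Adj w z → z ∈ T) {a b : V} (h : Reach G S a b) (ha : a ∈ T) :
    b ∈ T := by
  induction h with
  | refl => exact ha
  | tail _ hbc ih => exact hT _ ih _ hbc.2.1 hbc.2.2

/-- the component of `a` in `S` is closed -/
theorem comp_closed {G : SimpleGraph V} {S : Finset V} {a : V} {w z : V}
    (hw : w ∈ S) (haw : Reach G S a w) (hz : z ∈ S) (hwz : G.Adj w z) : Reach G S a z :=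
  Relation.ReflTransGen.tail haw ⟨hw, hz, hwz⟩

/-- `W` is separated by `b` in `S` and does not contain `y` -/
structure Sep (G : SimpleGraph V) (S : Finset V) (y b : V) (W : Finset V) : Prop where
  mem : b ∈ S
  sub : W ⊆ S.erase b
  ne : W.Nonempty
  ny : y ∉ W
  cl : ∀ w ∈ W, ∀ z ∈ S, G.Adj w z → z ∈ W ∨ z = b

theorem exists_sep {G : SimpleGraph V} {S : Finset V} {y b : V} (hb : b ∈ S)
    (h : ¬ Conn1 G (S.erase b)) : ∃ W, Sep G S y b W := by
  classical
  unfold Conn1 at h
  push Not at h
  obtain ⟨a, ha, a', ha', hr⟩ := h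
  -- the component of `c`
  have key : ∀ c ∈ S.erase b, ¬ Reach G (S.erase b) c y →
      ∃ W, Sep G S y b W := by
    intro c hc hcy
    refine ⟨(S.erase b).filter fun z => Reach G (S.erase b) c z, hb, Finset.filter_subset _ _,
      ⟨c, Finset.mem_filter.2 ⟨hc, Relation.ReflTransGen.refl⟩⟩, ?_, ?_⟩
    · intro hy
      exact hcy (Finset.mem_filter.1 hy).2
    · intro w hw z hz hwz
      rw [Finset.mem_filter] at hw
      by_cases hzb : z = b
      · exact Or.inr hzb
      · left
        have hz' : z ∈ S.erase b := Finset.mem_erase.2 ⟨hzb, hz⟩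
        exact Finset.mem_filter.2 ⟨hz', comp_closed hw.1 hw.2 hz' hwz⟩
  by_cases h1 : Reach G (S.erase b) a y
  · by_cases h2 : Reach G (S.erase b) a' y
    · exact absurd (Relation.ReflTransGen.trans h1 (Reach.symm h2)) hr
    · exact key a' ha' h2
  · exact key a ha h1

theorem min_sep {G : SimpleGraph V} {S : Finset V} {y b : V} {W : Finset V}
    (h : Sep G S y b W) : ∃ b W, Sep G S y b W ∧
      ∀ b' W', Sep G S y b' W' → W.card ≤ W'.card := by
  classical
  have hex : ∃ n, ∃ b W, Sep G S y b W ∧ W.card = n := ⟨_, b, W, h, rfl⟩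
  obtain ⟨b₁, W₁, h1, h2⟩ := Nat.find_spec hex
  refine ⟨b₁, W₁, h1, fun b' W' h' => ?_⟩
  rw [h2]
  exact Nat.find_min' hex ⟨b', W', h', rfl⟩

/-- a minimal separated set is connected -/
theorem sep_conn {G : SimpleGraph V} {S : Finset V} {y b : V} {W : Finset V}
    (h : Sep G S y b W) (hmin : ∀ b' W', Sep G S y b' W' → W.card ≤ W'.card) :
    Conn1 G W := by
  classical
  intro a ha a' ha'
  by_contra hr
  have h1 : Sep G S y b (W.filter fun z => Reach G W a z) := by
    refine ⟨h.mem, (Finset.filter_subset _ _).trans h.sub,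
      ⟨a, Finset.mem_filter.2 ⟨ha, Relation.ReflTransGen.refl⟩⟩, ?_, ?_⟩
    · intro hy
      exact h.ny (Finset.mem_filter.1 hy).1
    · intro w hw z hz hwz
      rw [Finset.mem_filter] at hw
      rcases h.cl w hw.1 z hz hwz with h2 | h2
      · exact Or.inl (Finset.mem_filter.2 ⟨h2, comp_closed hw.1 hw.2 h2 hwz⟩)
      · exact Or.inr h2
  have h2 := hmin _ _ h1
  have h3 : (W.filter fun z => Reach G W a z).card < W.card := by
    refine Finset.card_lt_card (Finset.filter_ssubset.2 ⟨a', ha', hr⟩)
  omega

/-- with the separating vertex it has no cut vertex -/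
theorem sep_conn2 {G : SimpleGraph V} {S : Finset V} {y b : V} {W : Finset V}
    (h : Sep G S y b W) (hmin : ∀ b' W', Sep G S y b' W' → W.card ≤ W'.card) :
    Conn2 G (insert b W) := by
  classical
  have hbW : b ∉ W := fun hb => (Finset.mem_erase.1 (h.sub hb)).1 rfl
  intro z hz
  rcases Finset.mem_insert.1 hz with rfl | hzW
  · rw [Finset.erase_insert hbW]
    exact sep_conn h hmin
  · have hzb : z ≠ b := fun e => hbW (e ▸ hzW)
    intro a ha a' ha'
    by_contra hr
    -- the component of `c` if it does not contain `b`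
    have key : ∀ c ∈ (insert b W).erase z, ¬ Reach G ((insert b W).erase z) c b → False := by
      intro c hc hcb
      have h1 : Sep G S y z (((insert b W).erase z).filter
          fun v => Reach G ((insert b W).erase z) c v) := by
        refine ⟨(Finset.mem_erase.1 (h.sub hzW)).2, ?_,
          ⟨c, Finset.mem_filter.2 ⟨hc, Relation.ReflTransGen.refl⟩⟩, ?_, ?_⟩
        · intro v hv
          rw [Finset.mem_filter, Finset.mem_erase, Finset.mem_insert] at hv
          rcases hv.1.2 with rfl | h2
          · exact absurd hv.2 hcb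
          · exact Finset.mem_erase.2 ⟨hv.1.1, (Finset.mem_erase.1 (h.sub h2)).2⟩
        · intro hy
          rw [Finset.mem_filter, Finset.mem_erase, Finset.mem_insert] at hy
          rcases hy.1.2 with rfl | h2
          · exact hcb hy.2
          · exact h.ny h2
        · intro w hw v hv hwv
          rw [Finset.mem_filter, Finset.mem_erase, Finset.mem_insert] at hw
          by_cases hvz : v = z
          · exact Or.inr hvz
          · left
            have hwW : w ∈ W := by
              rcases hw.1.2 with rfl | h2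
              · exact absurd hw.2 hcb
              · exact h2
            have hv' : v ∈ (insert b W).erase z := by
              rw [Finset.mem_erase, Finset.mem_insert]
              rcases h.cl w hwW v hv hwv with h3 | h3
              · exact ⟨hvz, Or.inr h3⟩
              · exact ⟨hvz, Or.inl h3⟩
            refine Finset.mem_filter.2 ⟨hv', comp_closed ?_ hw.2 hv' hwv⟩
            rw [Finset.mem_erase, Finset.mem_insert]
            exact hw.1
      have h2 := hmin _ _ h1
      have h3 : (((insert b W).erase z).filter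
          fun v => Reach G ((insert b W).erase z) c v) ⊆ W.erase z := by
        intro v hv
        rw [Finset.mem_filter, Finset.mem_erase, Finset.mem_insert] at hv
        rcases hv.1.2 with rfl | h4
        · exact absurd hv.2 hcb
        · exact Finset.mem_erase.2 ⟨hv.1.1, h4⟩
      have h4 := Finset.card_le_card h3
      rw [Finset.card_erase_of_mem hzW] at h4
      have h5 : 0 < W.card := Finset.card_pos.2 ⟨z, hzW⟩
      omega
    by_cases h1 : Reach G ((insert b W).erase z) a b
    · by_cases h2 : Reach G ((insert b W).erase z) a' b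
      · exact hr (Relation.ReflTransGen.trans h1 (Reach.symm h2))
      · exact key a' ha' h2
    · exact key a ha h1

/-- from `b` to `y` outside of `W` -/
theorem sep_reach {G : SimpleGraph V} {S : Finset V} {y b : V} {W : Finset V}
    (h : Sep G S y b W) (hS : Conn1 G S) (hy : y ∈ S) : Reach G (S \ W) b y := by
  classical
  by_contra hr
  have hcl : ∀ w ∈ (S \ W).filter (fun v => ¬ Reach G (S \ W) b v), ∀ z ∈ S, G.Adj w z →
      z ∈ (S \ W).filter (fun v => ¬ Reach G (S \ W) b v) := by
    intro w hw z hz hwz
    rw [Finset.mem_filter, Finset.mem_sdiff] at hw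
    have hwb : w ≠ b := by
      rintro rfl
      exact hw.2 Relation.ReflTransGen.refl
    have hzW : z ∉ W := by
      intro hzW
      rcases h.cl z hzW w hw.1.1 hwz.symm with h1 | h1
      · exact hw.1.2 h1
      · exact hwb h1
    refine Finset.mem_filter.2 ⟨Finset.mem_sdiff.2 ⟨hz, hzW⟩, fun h1 => hw.2 ?_⟩
    exact comp_closed (Finset.mem_sdiff.2 ⟨hz, hzW⟩) h1 (Finset.mem_sdiff.2 hw.1) hwz.symm
  have h1 : y ∈ (S \ W).filter (fun v => ¬ Reach G (S \ W) b v) :=
    Finset.mem_filter.2 ⟨Finset.mem_sdiff.2 ⟨hy, h.ny⟩, hr⟩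
  have h2 := closed_reach hcl (hS y hy b h.mem) h1
  exact (Finset.mem_filter.1 h2).2 Relation.ReflTransGen.refl

/-- in a connected set every vertex has a neighbour in it -/
theorem exists_adj {G : SimpleGraph V} {S : Finset V} (hS : Conn1 G S) {x y : V} (hx : x ∈ S)
    (hy : y ∈ S) (hxy : x ≠ y) : ∃ x' ∈ S, G.Adj x x' := by
  by_contra hno
  push Not at hno
  have h1 : ∀ w ∈ ({x} : Finset V), ∀ z ∈ S, G.Adj w z → z ∈ ({x} : Finset V) := by
    intro w hw z hz hwz
    rw [Finset.mem_singleton] at hw
    subst hw
    exact absurd hwz (hno z hz)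
  have h2 := closed_reach h1 (hS x hx y hy) (Finset.mem_singleton_self x)
  exact hxy (Finset.mem_singleton.1 h2).symm

/-- Erdos and Gallai -/
theorem gallai_link {G : SimpleGraph V} [DecidableRel G.Adj] : ∀ (n : ℕ) (S : Finset V),
    S.card = n → Conn2 G S → 3 ≤ S.card → ∀ (d : ℕ) (x y : V), x ∈ S → y ∈ S → x ≠ y →
    (∀ v ∈ S, v ≠ x → v ≠ y → d ≤ dU G S v) →
    ∃ Q : List V, Seg G Q x y ∧ Q.Nodup ∧ (∀ z ∈ Q, z ∈ S) ∧ d + 1 ≤ Q.length := by
  intro n
  induction n using Nat.strong_induction_on with
  | _ n ih =>
  intro S hn h2 h3 d x y hx hy hxy hdeg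
  -- `S` without `x`
  have hx1 : Conn1 G (S.erase x) := h2 x hx
  have hyx : y ∈ S.erase x := Finset.mem_erase.2 ⟨hxy.symm, hy⟩
  -- a neighbour of `x` other than `y`
  obtain ⟨x', hx', hxx'⟩ : ∃ x' ∈ S.erase y, G.Adj x x' := by
    have h4 : ∃ v ∈ S, v ≠ x ∧ v ≠ y := by
      by_contra hno
      push Not at hno
      have h5 : S ⊆ {x, y} := by
        intro v hv
        rw [Finset.mem_insert, Finset.mem_singleton]
        by_cases hvx : v = x
        · exact Or.inl hvx
        · exact Or.inr (hno v hv hvx)
      have h6 := (Finset.card_le_card h5).trans Finset.card_le_two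
      omega
    obtain ⟨v, hv, hvx, hvy⟩ := h4
    exact exists_adj (h2 y hy) (Finset.mem_erase.2 ⟨hxy, hx⟩) (Finset.mem_erase.2 ⟨hvy, hv⟩)
      hvx.symm
  rw [Finset.mem_erase] at hx'
  have hx'x : x' ≠ x := fun e => G.loopless.irrefl x (by rw [e] at hxx'; exact hxx')
  have hx'S : x' ∈ S.erase x := Finset.mem_erase.2 ⟨hx'x, hx'.2⟩
  -- putting `x` in front of a path
  have front : ∀ (z : V) (Q : List V), G.Adj x z → Seg G Q z y → Q.Nodup →
      (∀ v ∈ Q, v ∈ S.erase x) → d ≤ Q.length →
      ∃ Q : List V, Seg G Q x y ∧ Q.Nodup ∧ (∀ z ∈ Q, z ∈ S) ∧ d + 1 ≤ Q.length := by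
    intro z Q hz hQ hnd hQS hlen
    obtain ⟨q, Q', rfl⟩ : ∃ q Q', Q = q :: Q' := by
      cases Q with
      | nil => exact absurd hQ.hd (by simp)
      | cons q Q' => exact ⟨q, Q', rfl⟩
    have hqz : q = z := by
      have := hQ.hd
      simpa using this
    subst hqz
    refine ⟨x :: q :: Q', ⟨?_, rfl, ?_⟩, ?_, ?_, ?_⟩
    · rw [List.isChain_cons_cons]
      exact ⟨hz, hQ.ch⟩
    · rw [List.getLast?_cons_cons]
      exact hQ.lt
    · rw [List.nodup_cons]
      exact ⟨fun hxQ => (Finset.mem_erase.1 (hQS x hxQ)).1 rfl, hnd⟩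
    · intro v hv
      rcases List.mem_cons.1 hv with rfl | hv
      · exact hx
      · exact (Finset.mem_erase.1 (hQS v hv)).2
    · simp only [List.length_cons] at hlen ⊢
      omega
  by_cases hd : d ≤ 2
  · -- a short path is enough
    obtain ⟨Q, hnd, hch, hhd, hlt, hQS⟩ := Reach.path (hx1 x' hx'S y hyx) hx'S
    refine front x' Q hxx' ⟨hch, hhd, hlt⟩ hnd hQS ?_
    -- it has two vertices
    cases Q with
    | nil => simp at hhd
    | cons q Q' =>
      cases Q' with
      | nil =>
        simp only [List.head?_cons, Option.some.injEq, List.getLast?_singleton] at hhd hlt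
        exact absurd (hhd.symm.trans hlt) hx'.1
      | cons r Q'' =>
        simp only [List.length_cons]
        omega
  · push Not at hd
    have hcard : (S.erase x).card < n := by
      rw [Finset.card_erase_of_mem hx]
      omega
    -- degrees
    have hdS : ∀ v, dU G S v ≤ dU G (S.erase x) v + 1 := by
      intro v
      unfold dU
      have h4 : S.filter (fun w => G.Adj v w) ⊆
          insert x ((S.erase x).filter (fun w => G.Adj v w)) := by
        intro w hw
        rw [Finset.mem_filter] at hw
        rw [Finset.mem_insert, Finset.mem_filter, Finset.mem_erase]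
        by_cases hwx : w = x
        · exact Or.inl hwx
        · exact Or.inr ⟨⟨hwx, hw.1⟩, hw.2⟩
      exact (Finset.card_le_card h4).trans (Finset.card_insert_le _ _)
    by_cases hc : Conn2 G (S.erase x)
    · -- `S.erase x` has no cut vertex
      have h4 : 3 ≤ (S.erase x).card := by
        have h5 := hdeg x' hx'.2 hx'x hx'.1
        have h6 : S.filter (fun w => G.Adj x' w) ⊆ S.erase x' := by
          intro w hw
          rw [Finset.mem_filter] at hw
          exact Finset.mem_erase.2 ⟨fun e => G.loopless.irrefl x' (e ▸ hw.2), hw.1⟩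
        have h7 := Finset.card_le_card h6
        rw [Finset.card_erase_of_mem hx'.2] at h7
        rw [Finset.card_erase_of_mem hx]
        unfold dU at h5
        omega
      obtain ⟨Q, hQ, hnd, hQS, hlen⟩ := ih _ hcard (S.erase x) rfl hc h4 (d - 1) x' y hx'S hyx
        hx'.1 (fun v hv hv1 hv2 => by
          rw [Finset.mem_erase] at hv
          have h5 := hdeg v hv.2 hv.1 hv2
          have h6 := hdS v
          omega)
      exact front x' Q hxx' hQ hnd hQS (by omega)
    · -- a minimal separated set
      unfold Conn2 at hc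
      push Not at hc
      obtain ⟨b₀, hb₀, hb₀c⟩ := hc
      obtain ⟨W₀, hW₀⟩ := exists_sep (y := y) hb₀ hb₀c
      obtain ⟨b, W, hW, hmin⟩ := min_sep hW₀
      have hbW : b ∉ W := fun hb => (Finset.mem_erase.1 (hW.sub hb)).1 rfl
      have hWS : W ⊆ S.erase x := hW.sub.trans (Finset.erase_subset _ _)
      have hBS : insert b W ⊆ S.erase x := Finset.insert_subset hW.mem hWS
      have hxW : x ∉ W := fun h => (Finset.mem_erase.1 (hWS h)).1 rfl
      have hxb : x ≠ b := fun e => (Finset.mem_erase.1 hW.mem).1 e.symm
      -- a neighbour of `x` in `W`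
      obtain ⟨z, hzW, hxz⟩ : ∃ z ∈ W, G.Adj x z := by
        by_contra hno
        push Not at hno
        obtain ⟨w, hw⟩ := hW.ne
        have hbS : b ∈ S := (Finset.mem_erase.1 hW.mem).2
        have h4 : ∀ w ∈ W, ∀ v ∈ S.erase b, G.Adj w v → v ∈ W := by
          intro w hw v hv hwv
          rw [Finset.mem_erase] at hv
          by_cases hvx : v = x
          · subst hvx
            exact absurd hwv.symm (hno w hw)
          · rcases hW.cl w hw v (Finset.mem_erase.2 ⟨hvx, hv.2⟩) hwv with h5 | h5
            · exact h5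
            · exact absurd h5 hv.1
        have h5 := closed_reach h4 (h2 b hbS w
          (Finset.mem_erase.2 ⟨fun e => hbW (e ▸ hw), (Finset.mem_erase.1 (hWS hw)).2⟩) x
          (Finset.mem_erase.2 ⟨hxb, hx⟩)) hw
        exact hxW h5
      have hzx : z ≠ x := fun e => hxW (e ▸ hzW)
      have hzy : z ≠ y := fun e => hW.ny (e ▸ hzW)
      have hzb : z ≠ b := fun e => hbW (e ▸ hzW)
      -- degrees in `insert b W`
      have hdB : ∀ v ∈ W, dU G S v ≤ dU G (insert b W) v + 1 := by
        intro v hv
        unfold dU
        have h4 : S.filter (fun w => G.Adj v w) ⊆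
            insert x ((insert b W).filter (fun w => G.Adj v w)) := by
          intro w hw
          rw [Finset.mem_filter] at hw
          rw [Finset.mem_insert, Finset.mem_filter, Finset.mem_insert]
          by_cases hwx : w = x
          · exact Or.inl hwx
          · rcases hW.cl v hv w (Finset.mem_erase.2 ⟨hwx, hw.1⟩) hw.2 with h5 | h5
            · exact Or.inr ⟨Or.inr h5, hw.2⟩
            · exact Or.inr ⟨Or.inl h5, hw.2⟩
        exact (Finset.card_le_card h4).trans (Finset.card_insert_le _ _)
      have hB3 : 3 ≤ (insert b W).card := by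
        have h5 := hdeg z (Finset.mem_erase.1 (hWS hzW)).2 hzx hzy
        have h6 := hdB z hzW
        have h7 : (insert b W).filter (fun w => G.Adj z w) ⊆ (insert b W).erase z := by
          intro w hw
          rw [Finset.mem_filter] at hw
          exact Finset.mem_erase.2 ⟨fun e => G.loopless.irrefl z (e ▸ hw.2), hw.1⟩
        have h8 := Finset.card_le_card h7
        rw [Finset.card_erase_of_mem (Finset.mem_insert_of_mem hzW)] at h8
        unfold dU at h6 h5
        omega
      have hBn : (insert b W).card < n := lt_of_le_of_lt (Finset.card_le_card hBS) hcard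
      obtain ⟨P, hP, hPnd, hPB, hPlen⟩ := ih _ hBn (insert b W) rfl (sep_conn2 hW hmin) hB3
        (d - 1) z b (Finset.mem_insert_of_mem hzW) (Finset.mem_insert_self _ _) hzb
        (fun v hv hv1 hv2 => by
          have hvW : v ∈ W := by
            rcases Finset.mem_insert.1 hv with h5 | h5
            · exact absurd h5 hv2
            · exact h5
          have h5 := hdeg v (Finset.mem_erase.1 (hWS hvW)).2 (fun e => hxW (e ▸ hvW))
            (fun e => hW.ny (e ▸ hvW))
          have h6 := hdB v hvW
          omega)
      -- from `b` to `y`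
      obtain ⟨R, hRnd, hRch, hRhd, hRlt, hRS⟩ := Reach.path (sep_reach hW hx1 hyx)
        (Finset.mem_sdiff.2 ⟨hW.mem, hbW⟩)
      -- `P = P' ++ [b]`
      obtain ⟨P', rfl⟩ : ∃ P', P = P' ++ [b] := by
        have h5 := hP.lt
        rw [List.getLast?_eq_some_iff] at h5
        exact h5
      have hR0 : R ≠ [] := by
        intro e
        rw [e] at hRhd
        simp at hRhd
      have hPn := List.nodup_append.1 hPnd
      refine front z (P' ++ R) hxz ⟨?_, ?_, ?_⟩ ?_ ?_ ?_
      · have h5 := hP.ch
        rw [List.isChain_append] at h5 ⊢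
        refine ⟨h5.1, hRch, fun a ha c hc => h5.2.2 a ha c ?_⟩
        rw [hRhd] at hc
        simpa using hc
      · have h5 := hP.hd
        cases P' with
        | nil =>
          simp only [List.nil_append, List.head?_cons, Option.some.injEq] at h5
          exact absurd h5.symm hzb
        | cons a P'' =>
          simpa using h5
      · rw [List.getLast?_append_of_ne_nil _ hR0]
        exact hRlt
      · rw [List.nodup_append]
        refine ⟨hPn.1, hRnd, fun a ha c hc e => ?_⟩
        subst e
        have h5 := hPB a (List.mem_append.2 (Or.inl ha))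
        have h6 : a ≠ b := hPn.2.2 a ha b (by simp)
        rcases Finset.mem_insert.1 h5 with h7 | h7
        · exact h6 h7
        · exact (Finset.mem_sdiff.1 (hRS a hc)).2 h7
      · intro v hv
        rcases List.mem_append.1 hv with hv | hv
        · exact hBS (hPB v (List.mem_append.2 (Or.inl hv)))
        · exact (Finset.mem_sdiff.1 (hRS v hv)).1
      · have h5 : 1 ≤ R.length := List.length_pos_of_ne_nil hR0
        simp only [List.length_append, List.length_singleton] at hPlen ⊢
        omega

end Pool.Agent.EG31
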