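import Pool.Agent.EG31.Gallai

/-!
# Leaf blocks of a connected set with a cut vertex, and long paths out of them
-/

set_option autoImplicit false

namespace Pool.Agent.EG31

open List Pool.Agent.TF82 Pool.Agent.TFC Pool.Agent.TFB Pool.Agent.TFN

universe u

set_option linter.unusedSectionVars false

variable {V : Type u} [DecidableEq V]

/-- `insert b W` is a leaf block of `S` with cut vertex `b` -/
structure Leaf (G : SimpleGraph V) (S : Finset V) (b : V) (W : Finset V) : Prop where
  mem : b ∈ S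
  sub : W ⊆ S.erase b
  ne : W.Nonempty
  rest : ∃ y ∈ S, y ≠ b ∧ y ∉ W
  cl : ∀ w ∈ W, ∀ z ∈ S, G.Adj w z → z ∈ W ∨ z = b
  conn : Conn1 G W
  conn2 : Conn2 G (insert b W)

theorem Leaf.nb {G : SimpleGraph V} {S : Finset V} {b : V} {W : Finset V} (h : Leaf G S b W) :
    b ∉ W := fun hb => (Finset.mem_erase.1 (h.sub hb)).1 rfl

theorem Leaf.subS {G : SimpleGraph V} {S : Finset V} {b : V} {W : Finset V} (h : Leaf G S b W) :
    W ⊆ S := h.sub.trans (Finset.erase_subset _ _)

/-- a set with a cut vertex has a leaf block whose inner part avoids a given vertex -/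
theorem exists_leaf {G : SimpleGraph V} {S : Finset V} (h : ¬ Conn2 G S) (y : V) :
    ∃ b W, Leaf G S b W ∧ y ∉ W := by
  classical
  unfold Conn2 at h
  push Not at h
  obtain ⟨b₀, hb₀, hb₀c⟩ := h
  -- a component of `S.erase b₀` which is not everything and avoids `y`
  have hsm : ∃ W₁, Sep G S y b₀ W₁ ∧ W₁.card + 1 < S.card := by
    have hb₀c' := hb₀c
    unfold Conn1 at hb₀c'
    push Not at hb₀c'
    obtain ⟨a, ha, a', ha', hr⟩ := hb₀c'
    have key : ∀ c ∈ S.erase b₀, ∀ c' ∈ S.erase b₀, ¬ Reach G (S.erase b₀) c c' →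
        ¬ Reach G (S.erase b₀) c y → ∃ W₁, Sep G S y b₀ W₁ ∧ W₁.card + 1 < S.card := by
      intro c hc c' hc' hcc' hcy
      refine ⟨(S.erase b₀).filter fun z => Reach G (S.erase b₀) c z,
        ⟨hb₀, Finset.filter_subset _ _,
        ⟨c, Finset.mem_filter.2 ⟨hc, Relation.ReflTransGen.refl⟩⟩, ?_, ?_⟩, ?_⟩
      · intro hy
        exact hcy (Finset.mem_filter.1 hy).2
      · intro w hw z hz hwz
        rw [Finset.mem_filter] at hw
        by_cases hzb : z = b₀
        · exact Or.inr hzb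
        · have hz' : z ∈ S.erase b₀ := Finset.mem_erase.2 ⟨hzb, hz⟩
          exact Or.inl (Finset.mem_filter.2 ⟨hz', comp_closed hw.1 hw.2 hz' hwz⟩)
      · have h3 : ((S.erase b₀).filter fun z => Reach G (S.erase b₀) c z).card
            < (S.erase b₀).card :=
          Finset.card_lt_card (Finset.filter_ssubset.2 ⟨c', hc', hcc'⟩)
        rw [Finset.card_erase_of_mem hb₀] at h3
        omega
    by_cases h1 : Reach G (S.erase b₀) a y
    · refine key a' ha' a ha (fun h2 => hr (Reach.symm h2)) (fun h2 => ?_)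
      exact hr (Relation.ReflTransGen.trans h1 (Reach.symm h2))
    · exact key a ha a' ha' hr h1
  obtain ⟨W₁, hW₁, hW₁c⟩ := hsm
  obtain ⟨b, W, hW, hmin⟩ := min_sep hW₁
  refine ⟨b, W, ⟨hW.mem, hW.sub, hW.ne, ?_, hW.cl, sep_conn hW hmin, sep_conn2 hW hmin⟩, hW.ny⟩
  have h1 := hmin _ _ hW₁
  by_contra hno
  push Not at hno
  have h2 : S ⊆ insert b W := by
    intro v hv
    rw [Finset.mem_insert]
    by_cases hvb : v = b
    · exact Or.inl hvb
    · exact Or.inr (hno v hv hvb)
  have h3 := (Finset.card_le_card h2).trans (Finset.card_insert_le _ _)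
  omega

/-- inside a leaf block the vertices other than the cut vertex keep their degree -/
theorem Leaf.deg {G : SimpleGraph V} [DecidableRel G.Adj] {S : Finset V} {b : V} {W : Finset V}
    (h : Leaf G S b W) {w : V} (hw : w ∈ W) : dU G (insert b W) w = dU G S w := by
  unfold dU
  congr 1
  ext z
  rw [Finset.mem_filter, Finset.mem_filter, Finset.mem_insert]
  constructor
  · rintro ⟨h1 | h1, h2⟩
    · exact ⟨h1 ▸ h.mem, h2⟩
    · exact ⟨h.subS h1, h2⟩
  · rintro ⟨h1, h2⟩
    rcases h.cl w hw z h1 h2 with h3 | h3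
    · exact ⟨Or.inr h3, h2⟩
    · exact ⟨Or.inl h3, h2⟩

/-- the rest of the set is connected -/
theorem Leaf.reach {G : SimpleGraph V} {S : Finset V} {b : V} {W : Finset V} (h : Leaf G S b W)
    (hS : Conn1 G S) {x : V} (hx : x ∈ S) (hxW : x ∉ W) : Reach G (S \ W) b x :=
  sep_reach (y := x) ⟨h.mem, h.sub, h.ne, hxW, h.cl⟩ hS hx

/-- a long path from the inside of a leaf block to its cut vertex, inside the block -/
theorem Leaf.long {G : SimpleGraph V} [DecidableRel G.Adj] {S : Finset V} {b : V} {W : Finset V}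
    (h : Leaf G S b W) {v : V} (hv : v ∈ W) (hW : 2 ≤ W.card) {d : ℕ}
    (hd : ∀ w ∈ W, w ≠ v → d ≤ dU G S w) :
    ∃ Q : List V, Seg G Q v b ∧ Q.Nodup ∧ (∀ z ∈ Q, z ∈ insert b W) ∧ d + 1 ≤ Q.length := by
  have hvb : v ≠ b := fun e => h.nb (e ▸ hv)
  refine gallai_link _ (insert b W) rfl h.conn2 ?_ d v b (Finset.mem_insert_of_mem hv)
    (Finset.mem_insert_self _ _) hvb ?_
  · rw [Finset.card_insert_of_notMem h.nb]
    omega
  · intro w hw hwv hwb
    have hwW : w ∈ W := by
      rcases Finset.mem_insert.1 hw with h1 | h1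
      · exact absurd h1 hwb
      · exact h1
    rw [h.deg hwW]
    exact hd w hwW hwv

/-- the leaf block is large enough if the degrees are -/
theorem Leaf.two {G : SimpleGraph V} [DecidableRel G.Adj] {S : Finset V} {b : V} {W : Finset V}
    (h : Leaf G S b W) {v : V} (hv : v ∈ W) : dU G S v ≤ W.card := by
  rw [← h.deg hv]
  unfold dU
  have h1 : (insert b W).filter (fun w => G.Adj v w) ⊆ (insert b W).erase v := by
    intro w hw
    rw [Finset.mem_filter] at hw
    exact Finset.mem_erase.2 ⟨fun e => G.loopless.irrefl v (e ▸ hw.2), hw.1⟩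
  have h2 := Finset.card_le_card h1
  rw [Finset.card_erase_of_mem (Finset.mem_insert_of_mem hv),
    Finset.card_insert_of_notMem h.nb] at h2
  omega

/-- a long path from the inside of a leaf block to any vertex outside -/
theorem Leaf.link {G : SimpleGraph V} [DecidableRel G.Adj] {S : Finset V} {b : V} {W : Finset V}
    (h : Leaf G S b W) (hS : Conn1 G S) {v x : V} (hv : v ∈ W) (hx : x ∈ S) (hxW : x ∉ W)
    (hW : 2 ≤ W.card) {d : ℕ} (hd : ∀ w ∈ W, w ≠ v → d ≤ dU G S w) :
    ∃ Q : List V, Seg G Q v x ∧ Q.Nodup ∧ (∀ z ∈ Q, z ∈ S) ∧ d + 1 ≤ Q.length := by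
  classical
  have hvb : v ≠ b := fun e => h.nb (e ▸ hv)
  obtain ⟨P, hP, hPnd, hPB, hPlen⟩ := h.long hv hW hd
  obtain ⟨R, hRnd, hRch, hRhd, hRlt, hRS⟩ := Reach.path (h.reach hS hx hxW)
    (Finset.mem_sdiff.2 ⟨h.mem, h.nb⟩)
  obtain ⟨P', rfl⟩ : ∃ P', P = P' ++ [b] := by
    have h5 := hP.lt
    rw [List.getLast?_eq_some_iff] at h5
    exact h5
  have hR0 : R ≠ [] := by
    intro e
    rw [e] at hRhd
    simp at hRhd
  have hPn := List.nodup_append.1 hPnd
  refine ⟨P' ++ R, ⟨?_, ?_, ?_⟩, ?_, ?_, ?_⟩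
  · have h5 := hP.ch
    rw [List.isChain_append] at h5 ⊢
    refine ⟨h5.1, hRch, fun a ha c hc => h5.2.2 a ha c ?_⟩
    rw [hRhd] at hc
    simpa using hc
  · have h5 := hP.hd
    cases P' with
    | nil =>
      simp only [List.nil_append, List.head?_cons, Option.some.injEq] at h5
      exact absurd h5.symm hvb
    | cons a P'' =>
      simpa using h5
  · rw [List.getLast?_append_of_ne_nil _ hR0]
    exact hRlt
  · rw [List.nodup_append]
    refine ⟨hPn.1, hRnd, fun a ha c hc e => ?_⟩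
    subst e
    have h5 := hPB a (List.mem_append.2 (Or.inl ha))
    have h6 : a ≠ b := hPn.2.2 a ha b (by simp)
    rcases Finset.mem_insert.1 h5 with h7 | h7
    · exact h6 h7
    · exact (Finset.mem_sdiff.1 (hRS a hc)).2 h7
  · intro z hz
    rcases List.mem_append.1 hz with hz | hz
    · have h5 := hPB z (List.mem_append.2 (Or.inl hz))
      rcases Finset.mem_insert.1 h5 with h7 | h7
      · rw [h7]
        exact h.mem
      · exact h.subS h7
    · exact (Finset.mem_sdiff.1 (hRS z hz)).1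
  · have h5 : 1 ≤ R.length := by
      rcases Nat.eq_zero_or_pos R.length with h6 | h6
      · exact absurd (List.length_eq_zero_iff.1 h6) hR0
      · exact h6
    rw [List.length_append] at hPlen ⊢
    simp only [List.length_cons, List.length_nil] at hPlen
    omega

/-- there are two leaf blocks with disjoint inner parts -/
theorem two_leaves {G : SimpleGraph V} {S : Finset V} (hS : Conn1 G S) (hc : ¬ Conn2 G S) :
    ∃ b W b' W', Leaf G S b W ∧ Leaf G S b' W' ∧ Disjoint W W' := by
  classical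
  obtain ⟨b₀, hb₀⟩ : ∃ b₀, b₀ ∈ S := by
    unfold Conn2 at hc
    push Not at hc
    obtain ⟨b₀, hb₀, -⟩ := hc
    exact ⟨b₀, hb₀⟩
  obtain ⟨b, W, h, -⟩ := exists_leaf hc b₀
  obtain ⟨y, hy⟩ := h.ne
  obtain ⟨b', W', h', hy'⟩ := exists_leaf hc y
  refine ⟨b, W, b', W', h, h', ?_⟩
  rw [Finset.disjoint_left]
  intro c hcW hcW'
  have hcb' : c ≠ b' := fun e => h'.nb (e ▸ hcW')
  by_cases hb' : b' ∈ W
  · have hbb' : b ≠ b' := fun e => h.nb (e.symm ▸ hb')
    have h1 : ∀ w ∈ W', ∀ z ∈ (insert b W).erase b', G.Adj w z → z ∈ W' := by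
      intro w hw z hz hwz
      rw [Finset.mem_erase, Finset.mem_insert] at hz
      have hzS : z ∈ S := by
        rcases hz.2 with h2 | h2
        · rw [h2]
          exact h.mem
        · exact h.subS h2
      rcases h'.cl w hw z hzS hwz with h3 | h3
      · exact h3
      · exact absurd h3 hz.1
    have hc1 : c ∈ (insert b W).erase b' :=
      Finset.mem_erase.2 ⟨hcb', Finset.mem_insert_of_mem hcW⟩
    have h2 := h.conn2 b' (Finset.mem_insert_of_mem hb')
    have h3 : ∀ z ∈ (insert b W).erase b', z ∈ W' := fun z hz =>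
      closed_reach h1 (h2 c hc1 z hz) hcW'
    have hbW' : b ∈ W' := h3 b (Finset.mem_erase.2 ⟨hbb', Finset.mem_insert_self _ _⟩)
    have h4 : ∀ w ∈ W', ∀ z ∈ S \ W, G.Adj w z → z ∈ W' := by
      intro w hw z hz hwz
      rw [Finset.mem_sdiff] at hz
      rcases h'.cl w hw z hz.1 hwz with h5 | h5
      · exact h5
      · exact absurd (h5 ▸ hb') hz.2
    obtain ⟨x, hx, hxb', hxW'⟩ := h'.rest
    by_cases hxW : x ∈ W
    · exact hxW' (h3 x (Finset.mem_erase.2 ⟨hxb', Finset.mem_insert_of_mem hxW⟩))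
    · exact hxW' (closed_reach h4 (h.reach hS hx hxW) hbW')
  · have h1 : ∀ w ∈ W', ∀ z ∈ W, G.Adj w z → z ∈ W' := by
      intro w hw z hz hwz
      rcases h'.cl w hw z (h.subS hz) hwz with h3 | h3
      · exact h3
      · exact absurd (h3 ▸ hz) hb'
    exact hy' (closed_reach h1 (h.conn c hcW y hy) hcW')

end Pool.Agent.EG31
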